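import Pool.Agent.H47.MS.Base

/-!
MS project: modules COD, VIE.
-/

namespace MS

open H47 TopologicalSpace MeasureTheory Filter Topology

namespace H47

/-- the type of codes -/
abbrev Code : Type := Σ (r : ℕ) (M : ℕ), ((Fin (2 * r + 1) → Fin (M + 1)) → ℕ)

/-- the map given by a code -/
def runCode (c : Code) (x : ℤ → ℕ) : ℤ → ℕ := fun i =>
  c.2.2 (fun j => ⟨min (x (i + ((j : ℕ) : ℤ) - c.1)) c.2.1,
    Nat.lt_succ_of_le (min_le_right _ _)⟩)

theorem runCode_cont (c : Code) : Continuous (runCode c) := by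
  apply continuous_pi
  intro i
  have h1 : Continuous (fun x : ℤ → ℕ => fun j : Fin (2 * c.1 + 1) =>
      (⟨min (x (i + ((j : ℕ) : ℤ) - c.1)) c.2.1, Nat.lt_succ_of_le (min_le_right _ _)⟩ :
        Fin (c.2.1 + 1))) := by
    apply continuous_pi
    intro j
    have h2 : Continuous (fun n : ℕ => (⟨min n c.2.1, Nat.lt_succ_of_le (min_le_right _ _)⟩ :
      Fin (c.2.1 + 1))) := continuous_of_discreteTopology
    exact h2.comp (continuous_apply _)
  have h3 : Continuous c.2.2 := continuous_of_discreteTopology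
  exact h3.comp h1

theorem runCode_sh (c : Code) (x : ℤ → ℕ) (n : ℤ) : runCode c (sh n x) = sh n (runCode c x) := by
  funext i
  have e : ∀ j : ℤ, i + n + j - c.1 = i + j - c.1 + n := fun j => by ring
  simp only [runCode, sh, e]

end H47

theorem cod : CODStmt := by
  classical
  have hne : Nonempty Code := ⟨⟨0, 0, fun _ => 0⟩⟩
  obtain ⟨e, he⟩ := exists_surjective_nat Code
  refine ⟨fun k => runCode (e k), fun k => runCode_cont _, fun k x n => runCode_sh _ _ _, ?_⟩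
  intro X Y f g r hX h
  have hXs : ∀ x ∈ X, ∀ n : ℤ, sh n x ∈ X := fun x hx n => inv_sh hX.1 hx n
  -- a bound of the letters
  obtain ⟨M, hM⟩ : ∃ M : ℕ, ∀ x ∈ X, ∀ i, x i ≤ M := by
    have hK : IsCompact ((fun x : ℤ → ℕ => x 0) '' (X : Set (ℤ → ℕ))) :=
      X.isCompact.image (continuous_apply 0)
    obtain ⟨M, hM⟩ := hK.bddAbove
    refine ⟨M, fun x hx i => ?_⟩
    have := hM ⟨sh i x, hXs x hx i, rfl⟩
    simpa [sh] using this
  set tab : (Fin (2 * r + 1) → Fin (M + 1)) → ℕ := fun w =>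
    if hw : ∃ x, x ∈ X ∧ ∀ j : Fin (2 * r + 1), ((w j : Fin (M + 1)) : ℕ) = x (((j : ℕ) : ℤ) - r)
      then f hw.choose 0 else 0 with htab
  obtain ⟨k, hk⟩ := he ⟨r, M, tab⟩
  refine ⟨k, fun x hx => ?_⟩
  have hk' : runCode (e k) x = runCode ⟨r, M, tab⟩ x := by rw [hk]
  change runCode (e k) x = f x
  rw [hk']
  funext i
  simp only [runCode]
  have hw : ∃ y, y ∈ X ∧ ∀ j : Fin (2 * r + 1),
      ((⟨min (x (i + ((j : ℕ) : ℤ) - r)) M, Nat.lt_succ_of_le (min_le_right _ _)⟩ :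
        Fin (M + 1)) : ℕ) = y (((j : ℕ) : ℤ) - r) := by
    refine ⟨sh i x, hXs x hx i, fun j => ?_⟩
    simp only [sh]
    rw [min_eq_left (hM x hx _)]
    congr 1
    ring
  rw [htab]
  simp only
  rw [dif_pos hw]
  obtain ⟨h1, h2⟩ := hw.choose_spec
  set y := hw.choose
  have h3 : f x i = f (sh i x) 0 := by
    rw [h.comm x hx]
    simp [sh]
  rw [h3]
  apply h.rad y h1 (sh i x) (hXs x hx i) 0
  intro j hj
  rw [sub_zero] at hj
  obtain ⟨t, ht⟩ : ∃ t : ℕ, (t : ℤ) = j + r :=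
    ⟨(j + r).toNat, Int.toNat_of_nonneg (by have := (abs_le.1 hj).1; omega)⟩
  have ht' : t < 2 * r + 1 := by have := (abs_le.1 hj).2; omega
  have h4 := h2 ⟨t, ht'⟩
  simp only [ht] at h4
  rw [min_eq_left (hM x hx _), add_sub_cancel_right] at h4
  rw [← h4]
  simp only [sh]
  congr 1
  ring

theorem vie : VIEStmt := by
  have hopen : ∀ O : Set ((ℤ → ℕ) × (ℤ → ℕ)), IsOpen O →
      IsOpen {X : NC | ∃ x ∈ X, ∃ x' ∈ X, (x, x') ∈ O} := by
    intro O hO
    have : {X : NC | ∃ x ∈ X, ∃ x' ∈ X, (x, x') ∈ O} =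
        ⋃ (U : Set (ℤ → ℕ)) (V : Set (ℤ → ℕ)) (_ : IsOpen U ∧ IsOpen V ∧ U ×ˢ V ⊆ O),
          ({X : NC | ((X : Set (ℤ → ℕ)) ∩ U).Nonempty} ∩
            {X : NC | ((X : Set (ℤ → ℕ)) ∩ V).Nonempty}) := by
      ext X
      simp only [Set.mem_ofPred_eq, Set.mem_iUnion, Set.mem_inter_iff]
      constructor
      · rintro ⟨x, hx, x', hx', hxx⟩
        obtain ⟨U, V, hU, hV, hxU, hxV, hUV⟩ := isOpen_prod_iff.1 hO x x' hxx
        exact ⟨U, V, ⟨hU, hV, hUV⟩, ⟨x, hx, hxU⟩, ⟨x', hx', hxV⟩⟩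
      · rintro ⟨U, V, ⟨hU, hV, hUV⟩, ⟨x, hx, hxU⟩, ⟨x', hx', hxV⟩⟩
        exact ⟨x, hx, x', hx', hUV ⟨hxU, hxV⟩⟩
    rw [this]
    refine isOpen_iUnion fun U => isOpen_iUnion fun V => isOpen_iUnion fun h => ?_
    exact (NonemptyCompacts.isOpen_inter_nonempty_of_isOpen h.1).inter
      (NonemptyCompacts.isOpen_inter_nonempty_of_isOpen h.2.1)
  refine ⟨hopen, ?_⟩
  intro Φ hΦ hsh
  -- the bad pairs
  set B : ℕ → Set ((ℤ → ℕ) × (ℤ → ℕ)) := fun l =>
    {p | (∀ j : ℤ, |j| ≤ l → Φ p.1 j = Φ p.2 j) ∧ p.1 0 ≠ p.2 0} with hB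
  have hBopen : ∀ l, IsOpen (B l) := by
    intro l
    have e : B l = (⋂ j ∈ Finset.Icc (-(l : ℤ)) l,
        {p : (ℤ → ℕ) × (ℤ → ℕ) | Φ p.1 j = Φ p.2 j}) ∩ {p | p.1 0 ≠ p.2 0} := by
      ext p
      simp only [hB, Set.mem_ofPred_eq, Set.mem_inter_iff, Set.mem_iInter, Finset.mem_Icc, abs_le]
    rw [e]
    apply IsOpen.inter
    · apply isOpen_biInter_finset
      intro j _
      have hc : Continuous (fun p : (ℤ → ℕ) × (ℤ → ℕ) => (Φ p.1 j, Φ p.2 j)) := by fun_prop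
      exact (isOpen_discrete {q : ℕ × ℕ | q.1 = q.2}).preimage hc
    · have hc : Continuous (fun p : (ℤ → ℕ) × (ℤ → ℕ) => (p.1 0, p.2 0)) := by fun_prop
      exact (isOpen_discrete {q : ℕ × ℕ | q.1 ≠ q.2}).preimage hc
  have hBclosed : ∀ l, IsClosed (B l) := by
    intro l
    have e : B l = (⋂ j ∈ Finset.Icc (-(l : ℤ)) l,
        {p : (ℤ → ℕ) × (ℤ → ℕ) | Φ p.1 j = Φ p.2 j}) ∩ {p | p.1 0 ≠ p.2 0} := by
      ext p
      simp only [hB, Set.mem_ofPred_eq, Set.mem_inter_iff, Set.mem_iInter, Finset.mem_Icc, abs_le]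
    rw [e]
    apply IsClosed.inter
    · refine isClosed_iInter fun j => isClosed_iInter fun _ => ?_
      have hc : Continuous (fun p : (ℤ → ℕ) × (ℤ → ℕ) => (Φ p.1 j, Φ p.2 j)) := by fun_prop
      exact (isClosed_discrete {q : ℕ × ℕ | q.1 = q.2}).preimage hc
    · have hc : Continuous (fun p : (ℤ → ℕ) × (ℤ → ℕ) => (p.1 0, p.2 0)) := by fun_prop
      exact (isClosed_discrete {q : ℕ × ℕ | q.1 ≠ q.2}).preimage hc
  have hset : {X : {X : NC // IsMinSubshift X} | Set.InjOn Φ (X : NC)} =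
      ⋃ l : ℕ, (fun X : {X : NC // IsMinSubshift X} => (X : NC)) ⁻¹'
        ({X : NC | ∃ x ∈ X, ∃ x' ∈ X, (x, x') ∈ B l}ᶜ) := by
    ext ⟨X, hX⟩
    have hXs : ∀ x ∈ X, ∀ n : ℤ, sh n x ∈ X := fun x hx n => inv_sh hX.1 hx n
    simp only [Set.mem_ofPred_eq, Set.mem_iUnion, Set.mem_preimage, Set.mem_compl_iff]
    constructor
    · intro hinj
      by_contra hcon
      push Not at hcon
      have hne : (⋂ l : ℕ, (((X : Set (ℤ → ℕ)) ×ˢ (X : Set (ℤ → ℕ))) ∩ B l)).Nonempty := by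
        apply IsCompact.nonempty_iInter_of_sequence_nonempty_isCompact_isClosed
        · intro l p hp
          refine ⟨hp.1, fun j hj => hp.2.1 j (hj.trans ?_), hp.2.2⟩
          push_cast
          omega
        · intro l
          obtain ⟨x, hx, x', hx', hb⟩ := hcon l
          exact ⟨(x, x'), ⟨hx, hx'⟩, hb⟩
        · exact (X.isCompact.prod X.isCompact).inter_right (hBclosed 0)
        · intro l
          exact (X.isCompact.isClosed.prod X.isCompact.isClosed).inter (hBclosed l)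
      obtain ⟨p, hp⟩ := hne
      rw [Set.mem_iInter] at hp
      have h1 : Φ p.1 = Φ p.2 := by
        funext j
        refine (hp j.natAbs).2.1 j ?_
        rw [Int.abs_eq_natAbs]
      have h2 := hinj (hp 0).1.1 (hp 0).1.2 h1
      exact (hp 0).2.2 (by rw [h2])
    · rintro ⟨l, hl⟩ x hx x' hx' heq
      by_contra hne
      obtain ⟨i, hi⟩ := Function.ne_iff.1 hne
      apply hl
      refine ⟨sh i x, hXs x hx i, sh i x', hXs x' hx' i, fun j _ => ?_, ?_⟩
      · simp only [hsh, heq]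
      · simpa [sh] using hi
  rw [hset]
  refine MeasurableSet.iUnion fun l => ?_
  exact measurable_subtype_coe ((hopen _ (hBopen l)).measurableSet.compl)

end MS
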