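import Pool.Agent.H27.MS.Stmts

/-!
MS project: modules CHL, COD, TRA, VIE.
-/

namespace MS

namespace H47

open TopologicalSpace MeasureTheory Filter Topology

theorem sh_zero (x : ℤ → ℕ) : sh 0 x = x := by
  funext i; simp [sh]

theorem sh_add (m n : ℤ) (x : ℤ → ℕ) : sh (m + n) x = sh m (sh n x) := by
  funext i; simp only [sh]; congr 1; ring

theorem sh_neg_sh (n : ℤ) (x : ℤ → ℕ) : sh (-n) (sh n x) = x := by
  rw [← sh_add, neg_add_cancel, sh_zero]

theorem sh_sh_neg (n : ℤ) (x : ℤ → ℕ) : sh n (sh (-n) x) = x := by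
  rw [← sh_add, add_neg_cancel, sh_zero]

theorem shift_eq (x : ℤ → ℕ) : shift x = sh 1 x := rfl

/-- invariance under all shifts -/
theorem inv_sh {X : Set (ℤ → ℕ)} (hX : shift '' X = X) {x : ℤ → ℕ} (hx : x ∈ X) (n : ℤ) :
    sh n x ∈ X := by
  have h1 : ∀ y ∈ X, sh 1 y ∈ X := by
    intro y hy
    rw [← hX]
    exact ⟨y, hy, rfl⟩
  have h2 : ∀ y ∈ X, sh (-1) y ∈ X := by
    intro y hy
    rw [← hX] at hy
    obtain ⟨z, hz, rfl⟩ := hy
    rw [shift_eq, sh_neg_sh]
    exact hz
  have h3 : ∀ k : ℕ, ∀ y ∈ X, sh (k : ℤ) y ∈ X := by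
    intro k
    induction k with
    | zero => intro y hy; rw [Nat.cast_zero, sh_zero]; exact hy
    | succ k ih =>
      intro y hy
      rw [Nat.cast_succ, sh_add]
      exact ih _ (h1 y hy)
  have h4 : ∀ k : ℕ, ∀ y ∈ X, sh (-(k : ℤ)) y ∈ X := by
    intro k
    induction k with
    | zero => intro y hy; rw [Nat.cast_zero, neg_zero, sh_zero]; exact hy
    | succ k ih =>
      intro y hy
      have : -((k + 1 : ℕ) : ℤ) = -(k : ℤ) + -1 := by push_cast; ring
      rw [this, sh_add]
      exact ih _ (h2 y hy)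
  obtain ⟨k, rfl | rfl⟩ := n.eq_nat_or_neg
  · exact h3 k x hx
  · exact h4 k x hx

theorem self_mem_cyl (m : ℕ) (x : ℤ → ℕ) : x ∈ cyl m x := fun _ _ => rfl

theorem isOpen_cyl (m : ℕ) (x : ℤ → ℕ) : IsOpen (cyl m x) := by
  have : cyl m x = ⋂ i ∈ Finset.Icc (-(m : ℤ)) m, {y : ℤ → ℕ | y i = x i} := by
    ext y
    simp only [cyl, Set.mem_ofPred_eq, Set.mem_iInter, Finset.mem_Icc]
    constructor
    · intro h i hi
      exact h i (abs_le.2 hi)
    · intro h i hi
      exact h i (abs_le.1 hi)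
  rw [this]
  apply isOpen_biInter_finset
  intro i _
  exact (isOpen_discrete ({x i} : Set ℕ)).preimage (f := fun y : ℤ → ℕ => y i)
    (continuous_apply i)

/-- cylinders form a basis -/
theorem exists_cyl {O : Set (ℤ → ℕ)} (hO : IsOpen O) {x : ℤ → ℕ} (hx : x ∈ O) :
    ∃ m, cyl m x ⊆ O := by
  obtain ⟨I, u, hu, hI⟩ := isOpen_pi_iff.1 hO x hx
  refine ⟨I.sup (fun i => i.natAbs), fun y hy => hI ?_⟩
  intro i hi
  have h1 : i.natAbs ≤ I.sup (fun i => i.natAbs) := Finset.le_sup (f := fun i : ℤ => i.natAbs) hi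
  have h2 : |i| ≤ (I.sup (fun i : ℤ => i.natAbs) : ℕ) := by
    rw [Int.abs_eq_natAbs]
    exact_mod_cast h1
  rw [hy i h2]
  exact (hu i hi).2

/-- a continuous integer valued function on a compact set depends on finitely many coordinates -/
theorem exists_radius {K : Set (ℤ → ℕ)} (hK : IsCompact K) {h : (ℤ → ℕ) → ℕ}
    (hh : ContinuousOn h K) : ∃ r : ℕ, ∀ x ∈ K, ∀ x' ∈ K, (∀ j : ℤ, |j| ≤ r → x j = x' j) →
      h x = h x' := by
  have h1 : ∀ x ∈ K, ∃ m, ∀ y ∈ K, y ∈ cyl m x → h y = h x := by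
    intro x hx
    obtain ⟨O, hO, hOx⟩ := (continuousOn_iff'.1 hh) {h x} (isOpen_discrete _)
    have hxO : x ∈ O := by
      have : x ∈ h ⁻¹' {h x} ∩ K := ⟨rfl, hx⟩
      rw [hOx] at this
      exact this.1
    obtain ⟨m, hm⟩ := exists_cyl hO hxO
    refine ⟨m, fun y hy hym => ?_⟩
    have : y ∈ O ∩ K := ⟨hm hym, hy⟩
    rw [← hOx] at this
    exact this.1
  choose! m hm using h1
  obtain ⟨t, htK, ht⟩ := hK.elim_nhds_subcover (fun x => cyl (m x) x)
    (fun x _ => (isOpen_cyl _ _).mem_nhds (self_mem_cyl _ _))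
  refine ⟨t.sup m, fun x hx x' hx' hj => ?_⟩
  obtain ⟨z, hz, hxz⟩ := Set.mem_iUnion₂.1 (ht hx)
  have hx'z : x' ∈ cyl (m z) z := by
    intro i hi
    have h2 : m z ≤ t.sup m := Finset.le_sup hz
    rw [← hj i (hi.trans (by exact_mod_cast h2))]
    exact hxz i hi
  rw [hm z (htK z hz) x hx hxz, hm z (htK z hz) x' hx' hx'z]

/-- criterion for continuity -/
theorem continuousOn_of_rad {K : Set (ℤ → ℕ)} {f : (ℤ → ℕ) → (ℤ → ℕ)} {r : ℕ}
    (h : ∀ x ∈ K, ∀ x' ∈ K, ∀ i : ℤ, (∀ j : ℤ, |j - i| ≤ r → x j = x' j) → f x i = f x' i) :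
    ContinuousOn f K := by
  rw [continuousOn_pi]
  intro i x hx
  have hO := (isOpen_cyl (r + i.natAbs) x).mem_nhds (self_mem_cyl _ _)
  have h1 : ∀ᶠ y in 𝓝[K] x, f y i = f x i := by
    filter_upwards [mem_nhdsWithin_of_mem_nhds hO, self_mem_nhdsWithin] with y hy hyK
    apply h y hyK x hx i
    intro j hj
    apply hy j
    have h2 : |j| ≤ |j - i| + |i| := by
      calc |j| = |(j - i) + i| := by ring_nf
        _ ≤ _ := abs_add_le _ _
    push_cast
    omega
  exact (continuousWithinAt_const (b := f x i)).congr_of_eventuallyEq h1 rfl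

theorem mk_conj {X Y : NC} (hX : ∀ x ∈ X, ∀ n : ℤ, sh n x ∈ X) {f g : (ℤ → ℕ) → (ℤ → ℕ)}
    (maps : ∀ x ∈ X, f x ∈ Y) (maps' : ∀ y ∈ Y, g y ∈ X) (left : ∀ x ∈ X, g (f x) = x)
    (right : ∀ y ∈ Y, f (g y) = y) (comm : ∀ x ∈ X, ∀ n : ℤ, f (sh n x) = sh n (f x))
    (hf : ContinuousOn f X) (hg : ContinuousOn g Y) : ∃ r, IsConj X Y f g r := by
  have comm' : ∀ y ∈ Y, ∀ n : ℤ, g (sh n y) = sh n (g y) := by
    intro y hy n
    have h1 := comm (g y) (maps' y hy) n
    rw [right y hy] at h1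
    rw [← h1, left _ (hX _ (maps' y hy) n)]
  have hY : ∀ y ∈ Y, ∀ n : ℤ, sh n y ∈ Y := by
    intro y hy n
    have h1 := comm (g y) (maps' y hy) n
    rw [right y hy] at h1
    rw [← h1]
    exact maps _ (hX _ (maps' y hy) n)
  obtain ⟨r1, hr1⟩ := exists_radius X.isCompact
    (h := fun x => f x 0) ((continuous_apply (0 : ℤ)).comp_continuousOn hf)
  obtain ⟨r2, hr2⟩ := exists_radius Y.isCompact
    (h := fun x => g x 0) ((continuous_apply (0 : ℤ)).comp_continuousOn hg)
  refine ⟨r1 + r2, maps, maps', left, right, comm, comm', ?_, ?_⟩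
  · intro x hx x' hx' i hj
    have h1 := hr1 (sh i x) (hX x hx i) (sh i x') (hX x' hx' i) (by
      intro j hj'
      simp only [sh]
      apply hj
      rw [add_sub_cancel_right]
      push_cast
      omega)
    simp only [comm x hx, comm x' hx'] at h1
    simpa [sh] using h1
  · intro x hx x' hx' i hj
    have h1 := hr2 (sh i x) (hY x hx i) (sh i x') (hY x' hx' i) (by
      intro j hj'
      simp only [sh]
      apply hj
      rw [add_sub_cancel_right]
      push_cast
      omega)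
    simp only [comm' x hx, comm' x' hx'] at h1
    simpa [sh] using h1

theorem conj_continuousOn {X Y : NC} {f g : (ℤ → ℕ) → (ℤ → ℕ)} {r : ℕ} (h : IsConj X Y f g r) :
    ContinuousOn f X ∧ ContinuousOn g Y :=
  ⟨continuousOn_of_rad h.rad, continuousOn_of_rad h.rad'⟩

/-- commutation with the unit shift gives commutation with all shifts -/
theorem comm_all {X : Set (ℤ → ℕ)} (hX : ∀ x ∈ X, ∀ n : ℤ, sh n x ∈ X)
    {f : (ℤ → ℕ) → (ℤ → ℕ)} (h : ∀ x ∈ X, f (sh 1 x) = sh 1 (f x)) :
    ∀ x ∈ X, ∀ n : ℤ, f (sh n x) = sh n (f x) := by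
  have h2 : ∀ x ∈ X, f (sh (-1) x) = sh (-1) (f x) := by
    intro x hx
    have h1 := h (sh (-1) x) (hX x hx _)
    rw [sh_sh_neg] at h1
    rw [h1, sh_neg_sh]
  have h3 : ∀ k : ℕ, ∀ x ∈ X, f (sh (k : ℤ) x) = sh (k : ℤ) (f x) := by
    intro k
    induction k with
    | zero => intro x _; rw [Nat.cast_zero, sh_zero, sh_zero]
    | succ k ih =>
      intro x hx
      rw [Nat.cast_succ, sh_add, ih _ (hX x hx 1), h x hx, ← sh_add]
  have h4 : ∀ k : ℕ, ∀ x ∈ X, f (sh (-(k : ℤ)) x) = sh (-(k : ℤ)) (f x) := by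
    intro k
    induction k with
    | zero => intro x _; rw [Nat.cast_zero, neg_zero, sh_zero, sh_zero]
    | succ k ih =>
      intro x hx
      have : -((k + 1 : ℕ) : ℤ) = -(k : ℤ) + -1 := by push_cast; ring
      rw [this, sh_add, ih _ (hX x hx (-1)), h2 x hx, ← sh_add]
  intro x hx n
  obtain ⟨k, rfl | rfl⟩ := n.eq_nat_or_neg
  · exact h3 k x hx
  · exact h4 k x hx

end H47

open H47 TopologicalSpace MeasureTheory Filter Topology

theorem chl : CHLStmt := by
  constructor
  · intro X Y hX hY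
    have hXs : ∀ x ∈ X, ∀ n : ℤ, sh n x ∈ X := fun x hx n => inv_sh hX.1 hx n
    constructor
    · rintro ⟨φ, hφ⟩
      classical
      set f : (ℤ → ℕ) → (ℤ → ℕ) := fun x => if h : x ∈ (X : Set (ℤ → ℕ)) then φ ⟨x, h⟩ else x
        with hf
      set g : (ℤ → ℕ) → (ℤ → ℕ) :=
        fun x => if h : x ∈ (Y : Set (ℤ → ℕ)) then φ.symm ⟨x, h⟩ else x with hg
      have f_eq : ∀ x (h : x ∈ (X : Set (ℤ → ℕ))), f x = φ ⟨x, h⟩ := fun x h => dif_pos h
      have g_eq : ∀ x (h : x ∈ (Y : Set (ℤ → ℕ))), g x = φ.symm ⟨x, h⟩ := fun x h => dif_pos h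
      refine ⟨f, g, mk_conj hXs ?_ ?_ ?_ ?_ ?_ ?_ ?_⟩
      · intro x hx
        rw [f_eq x hx]
        exact (φ ⟨x, hx⟩).2
      · intro y hy
        rw [g_eq y hy]
        exact (φ.symm ⟨y, hy⟩).2
      · intro x hx
        rw [f_eq x hx, g_eq _ (φ ⟨x, hx⟩).2]
        simp
      · intro y hy
        rw [g_eq y hy, f_eq _ (φ.symm ⟨y, hy⟩).2]
        simp
      · apply comm_all hXs
        intro x hx
        rw [f_eq x hx, f_eq _ (hXs x hx 1)]
        exact hφ ⟨x, hx⟩ ⟨sh 1 x, hXs x hx 1⟩ rfl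
      · rw [continuousOn_iff_continuous_domRestrict]
        have : (X : Set (ℤ → ℕ)).domRestrict f = fun x => (φ x : ℤ → ℕ) := by
          funext x
          rw [Set.domRestrict_apply, f_eq x.1 x.2]
        rw [this]
        exact continuous_subtype_val.comp φ.continuous
      · rw [continuousOn_iff_continuous_domRestrict]
        have : (Y : Set (ℤ → ℕ)).domRestrict g = fun x => (φ.symm x : ℤ → ℕ) := by
          funext x
          rw [Set.domRestrict_apply, g_eq x.1 x.2]
        rw [this]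
        exact continuous_subtype_val.comp φ.symm.continuous
    · rintro ⟨f, g, r, h⟩
      obtain ⟨hf, hg⟩ := conj_continuousOn h
      refine ⟨⟨⟨fun x => ⟨f x, h.maps x x.2⟩, fun y => ⟨g y, h.maps' y y.2⟩, ?_, ?_⟩, ?_, ?_⟩, ?_⟩
      · intro x
        exact Subtype.ext (h.left x x.2)
      · intro y
        exact Subtype.ext (h.right y y.2)
      · exact (continuousOn_iff_continuous_domRestrict.1 hf).subtype_mk _
      · exact (continuousOn_iff_continuous_domRestrict.1 hg).subtype_mk _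
      · intro x x' hx'
        have := h.comm x x.2 1
        change f x' = shift (f x)
        rw [hx']
        exact this
  · intro X Y f hX hf hcomm hinj himg
    have hXs : ∀ x ∈ X, ∀ n : ℤ, sh n x ∈ X := fun x hx n => inv_sh hX.1 hx n
    have maps : ∀ x ∈ X, f x ∈ Y := by
      intro x hx
      have : f x ∈ (Y : Set (ℤ → ℕ)) := by rw [← himg]; exact ⟨x, hx, rfl⟩
      exact this
    set g : (ℤ → ℕ) → (ℤ → ℕ) := Function.invFunOn f X with hg
    have hsurj : ∀ y ∈ Y, ∃ x ∈ X, f x = y := by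
      intro y hy
      have : y ∈ f '' (X : Set (ℤ → ℕ)) := by rw [himg]; exact hy
      exact this
    have maps' : ∀ y ∈ Y, g y ∈ X := fun y hy => Function.invFunOn_mem (hsurj y hy)
    have right : ∀ y ∈ Y, f (g y) = y := fun y hy => Function.invFunOn_eq (hsurj y hy)
    have left : ∀ x ∈ X, g (f x) = x := fun x hx =>
      hinj (maps' _ (maps x hx)) hx (right _ (maps x hx))
    refine ⟨g, mk_conj hXs maps maps' left right hcomm hf ?_⟩
    -- continuity of the inverse
    have hc : CompactSpace (X : Set (ℤ → ℕ)) := isCompact_iff_compactSpace.1 X.isCompact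
    let e : (X : Set (ℤ → ℕ)) ≃ (Y : Set (ℤ → ℕ)) :=
      ⟨fun x => ⟨f x, maps x x.2⟩, fun y => ⟨g y, maps' y y.2⟩,
        fun x => Subtype.ext (left x x.2), fun y => Subtype.ext (right y y.2)⟩
    have he : Continuous e := (continuousOn_iff_continuous_domRestrict.1 hf).subtype_mk _
    have he' := he.continuous_symm_of_equiv_compact_to_t2
    rw [continuousOn_iff_continuous_domRestrict]
    exact continuous_subtype_val.comp he'

theorem tra : TRAStmt := by
  refine ⟨?_, ?_, ?_, ?_⟩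
  · intro X Y f g r h hX
    obtain ⟨hf, hg⟩ := conj_continuousOn h
    have hXs : ∀ x ∈ X, ∀ n : ℤ, sh n x ∈ X := fun x hx n => inv_sh hX.1 hx n
    have hYs : ∀ y ∈ Y, ∀ n : ℤ, sh n y ∈ Y := by
      intro y hy n
      have h1 := h.comm (g y) (h.maps' y hy) n
      rw [h.right y hy] at h1
      rw [← h1]
      exact h.maps _ (hXs _ (h.maps' y hy) n)
    refine ⟨?_, ?_⟩
    · ext y
      constructor
      · rintro ⟨z, hz, rfl⟩
        exact hYs z hz 1
      · intro hy
        exact ⟨sh (-1) y, hYs y hy _, sh_sh_neg 1 y⟩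
    · intro y0 hy0 y hy
      have h1 := hX.2 (g y0) (h.maps' y0 hy0) (h.maps' y hy)
      have hcl : closure {z : ℤ → ℕ | ∃ n : ℤ, ∀ i, z i = g y0 (i + n)} ⊆ X := by
        apply closure_minimal _ X.isCompact.isClosed
        rintro z ⟨n, hz⟩
        have : z = sh n (g y0) := funext hz
        rw [this]
        exact hXs _ (h.maps' y0 hy0) n
      have h2 := (hf.mono hcl).image_closure
      have h3 : y ∈ f '' closure {z : ℤ → ℕ | ∃ n : ℤ, ∀ i, z i = g y0 (i + n)} :=
        ⟨g y, h1, h.right y hy⟩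
      refine closure_mono ?_ (h2 h3)
      rintro _ ⟨z, ⟨n, hz⟩, rfl⟩
      refine ⟨n, fun i => ?_⟩
      have : z = sh n (g y0) := funext hz
      rw [this, h.comm _ (h.maps' y0 hy0), h.right y0 hy0]
      rfl
  · intro X Y f g r h hX hZ
    have hXs : ∀ x ∈ X, ∀ n : ℤ, sh n x ∈ X := fun x hx n => inv_sh hX.1 hx n
    -- finiteness of the sets of words
    have hfin : ∀ n, (words X n).Finite := by
      intro n
      have hK : IsCompact ((fun (x : ℤ → ℕ) (i : Fin n) => x ((i : ℕ) : ℤ)) ''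
          (X : Set (ℤ → ℕ))) := by
        apply X.isCompact.image
        fun_prop
      have hd : DiscreteTopology (Fin n → ℕ) := inferInstance
      apply (hK.finite_of_discrete).subset
      rintro w ⟨x, hx, hw⟩
      exact ⟨x, hx, (funext hw).symm⟩
    have hne : ∀ n, 1 ≤ (words Y n).ncard ∨ ¬ (words Y n).Finite := by
      intro n
      by_cases hf : (words Y n).Finite
      · left
        obtain ⟨y, hy⟩ := Y.nonempty
        exact (Set.ncard_pos hf).2 ⟨fun i => y ((i : ℕ) : ℤ), y, hy, fun i => rfl⟩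
      · exact Or.inr hf
    have hle : ∀ n, (words Y n).ncard ≤ (words X (n + 2 * r)).ncard := by
      intro n
      have hex : ∀ w : Fin n → ℕ, ∃ y : ℤ → ℕ, w ∈ words Y n → (y ∈ Y ∧ ∀ i : Fin n,
          w i = y ((i : ℕ) : ℤ)) := by
        intro w
        by_cases hw : w ∈ words Y n
        · obtain ⟨y, hy, hyw⟩ := hw
          exact ⟨y, fun _ => ⟨hy, hyw⟩⟩
        · exact ⟨fun _ => 0, fun h' => absurd h' hw⟩
      choose Yw hYw using hex
      refine Set.ncard_le_ncard_of_injOn
        (fun w (i : Fin (n + 2 * r)) => g (Yw w) (((i : ℕ) : ℤ) - r)) ?_ ?_ (hfin _)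
      · intro w hw
        refine ⟨sh (-(r : ℤ)) (g (Yw w)), hXs _ (h.maps' _ (hYw w hw).1) _, fun i => ?_⟩
        simp only [sh]
        congr 1
      · intro w hw w' hw' heq
        have h1 := hYw w hw
        have h2 := hYw w' hw'
        funext i
        rw [h1.2 i, h2.2 i, ← h.right _ h1.1, ← h.right _ h2.1]
        apply h.rad _ (h.maps' _ h1.1) _ (h.maps' _ h2.1)
        intro j hj
        have hi := i.2
        rw [abs_le] at hj
        obtain ⟨k, hk⟩ : ∃ k : ℕ, (k : ℤ) = j + r := ⟨(j + r).toNat, Int.toNat_of_nonneg (by omega)⟩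
        have hkn : k < n + 2 * r := by omega
        have h3 := congrFun heq ⟨k, hkn⟩
        simp only [hk, add_sub_cancel_right] at h3
        exact h3
    unfold ZeroEntropy at hZ ⊢
    have hY1 : ∀ n, 0 ≤ Real.log ((words Y n).ncard : ℝ) := fun n => Real.log_natCast_nonneg _
    have hlim : Tendsto (fun n : ℕ => Real.log ((words X (n + 2 * r)).ncard : ℝ) / n) atTop
        (𝓝 0) := by
      have h1 : Tendsto (fun n : ℕ => Real.log ((words X (n + 2 * r)).ncard : ℝ) /
          ((n + 2 * r : ℕ) : ℝ)) atTop (𝓝 0) := hZ.comp (tendsto_add_atTop_nat (2 * r))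
      have h2 : Tendsto (fun n : ℕ => ((n + 2 * r : ℕ) : ℝ) / n) atTop (𝓝 1) := by
        have h3 : Tendsto (fun n : ℕ => 1 + (2 * r : ℕ) / (n : ℝ)) atTop (𝓝 (1 + 0)) :=
          tendsto_const_nhds.add (tendsto_const_div_atTop_nhds_zero_nat _)
        rw [add_zero] at h3
        refine h3.congr' ?_
        filter_upwards [eventually_gt_atTop 0] with n hn
        have : (n : ℝ) ≠ 0 := by exact_mod_cast hn.ne'
        push_cast
        field_simp
      have h3 := h1.mul h2
      rw [zero_mul] at h3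
      refine h3.congr' ?_
      filter_upwards [eventually_gt_atTop 0] with n hn
      have h4 : (n : ℝ) ≠ 0 := by exact_mod_cast hn.ne'
      have h5 : ((n + 2 * r : ℕ) : ℝ) ≠ 0 := by
        have : n + 2 * r ≠ 0 := by omega
        exact_mod_cast this
      field_simp
    refine squeeze_zero (fun n => div_nonneg (hY1 n) (Nat.cast_nonneg n)) (fun n => ?_) hlim
    apply div_le_div_of_nonneg_right _ (Nat.cast_nonneg n)
    rcases Nat.eq_zero_or_pos (words Y n).ncard with h0 | h0
    · rw [h0, Nat.cast_zero, Real.log_zero]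
      exact Real.log_natCast_nonneg _
    · apply Real.log_le_log (by exact_mod_cast h0)
      exact_mod_cast hle n
  · intro X Y f g r h
    exact ⟨h.maps', h.maps, h.right, h.left, h.comm', h.comm, h.rad', h.rad⟩
  · intro X Y Z f g r f' g' r' h h'
    refine ⟨fun x hx => h'.maps _ (h.maps x hx), fun z hz => h.maps' _ (h'.maps' z hz),
      fun x hx => ?_, fun z hz => ?_, fun x hx n => ?_, fun z hz n => ?_,
      fun x hx x' hx' i hj => ?_, fun z hz z' hz' i hj => ?_⟩
    · simp only [Function.comp]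
      rw [h'.left _ (h.maps x hx), h.left x hx]
    · simp only [Function.comp]
      rw [h.right _ (h'.maps' z hz), h'.right z hz]
    · simp only [Function.comp]
      rw [h.comm x hx, h'.comm _ (h.maps x hx)]
    · simp only [Function.comp]
      rw [h'.comm' z hz, h.comm' _ (h'.maps' z hz)]
    · simp only [Function.comp]
      apply h'.rad _ (h.maps x hx) _ (h.maps x' hx')
      intro k hk
      apply h.rad x hx x' hx'
      intro j hj'
      apply hj
      have : |j - i| ≤ |j - k| + |k - i| := by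
        calc |j - i| = |(j - k) + (k - i)| := by ring_nf
          _ ≤ _ := abs_add_le _ _
      push_cast
      omega
    · simp only [Function.comp]
      apply h.rad' _ (h'.maps' z hz) _ (h'.maps' z' hz')
      intro k hk
      apply h'.rad' z hz z' hz'
      intro j hj'
      apply hj
      have : |j - i| ≤ |j - k| + |k - i| := by
        calc |j - i| = |(j - k) + (k - i)| := by ring_nf
          _ ≤ _ := abs_add_le _ _
      push_cast
      omega

end MS
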